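import Pool.Agent.Y89.TS.Stm

/-! Project TS (helper89), job TS-EQV: unitary invariance implies infinitesimal invariance. -/

set_option autoImplicit false

namespace Pool.Agent.Y888.TS

open Matrix Finset
open Pool.Agent.Y89.TS

section path

variable {ι : Type} [Fintype ι] [DecidableEq ι]

open scoped Matrix.Norms.L2Operator in
/-- a path in the unitary group with a given derivative -/
theorem exists_path (X : Matrix ι ι ℂ) (hX : Xᴴ = -X) :
    ∃ g : ℝ → Matrix ι ι ℂ, (∀ u, (g u)ᴴ * g u = 1) ∧ g 0 = 1 ∧
      ∀ i j, HasDerivAt (fun u => g u i j) (X i j) 0 := by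
  let +nondep : NormedAlgebra ℚ (Matrix ι ι ℂ) := .restrictScalars ℚ ℂ (Matrix ι ι ℂ)
  refine ⟨fun u => NormedSpace.exp (u • X), fun u => ?_, ?_, fun i j => ?_⟩
  · have h1 : u • X ∈ skewAdjoint (Matrix ι ι ℂ) := by
      rw [skewAdjoint.mem_iff, star_smul, star_eq_conjTranspose, hX, star_trivial, smul_neg]
    have h2 := NormedSpace.exp_mem_unitary_of_mem_skewAdjoint h1
    have h3 := (Unitary.mem_iff.1 h2).1
    rwa [star_eq_conjTranspose] at h3
  · simp
  · have h1 := hasDerivAt_exp_smul_const (𝕂 := ℝ) X 0
    rw [zero_smul, NormedSpace.exp_zero, one_mul] at h1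
    let L : Matrix ι ι ℂ →ₗ[ℝ] ℂ :=
      { toFun := fun M => M i j
        map_add' := fun _ _ => rfl
        map_smul' := fun _ _ => rfl }
    exact (LinearMap.toContinuousLinearMap L).hasFDerivAt.comp_hasDerivAt (0 : ℝ) h1

end path

section main

variable {ι : Type} [Fintype ι] [DecidableEq ι] {κ : Type} [Fintype κ] [DecidableEq κ]

/-- the infinitesimal action -/
noncomputable def inf (t : κ → Bool) (F : (κ → ι) → ℂ) (I : κ → ι) (X : Matrix ι ι ℂ) : ℂ :=
  ∑ k, ∑ j, cond (t k) (X (I k) j) (-(X j (I k))) * F (Function.update I k j)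

omit [DecidableEq ι] in
theorem inf_add (t : κ → Bool) (F : (κ → ι) → ℂ) (I : κ → ι) (X Y : Matrix ι ι ℂ) :
    inf t F I (X + Y) = inf t F I X + inf t F I Y := by
  unfold inf
  rw [← sum_add_distrib]
  refine sum_congr rfl fun k _ => ?_
  rw [← sum_add_distrib]
  refine sum_congr rfl fun j _ => ?_
  rw [← add_mul]
  cases t k
  · simp only [cond_false, Matrix.add_apply]
    ring
  · simp only [cond_true, Matrix.add_apply]

omit [DecidableEq ι] in
theorem inf_smul (t : κ → Bool) (F : (κ → ι) → ℂ) (I : κ → ι) (c : ℂ) (X : Matrix ι ι ℂ) :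
    inf t F I (c • X) = c * inf t F I X := by
  unfold inf
  rw [mul_sum]
  refine sum_congr rfl fun k _ => ?_
  rw [mul_sum]
  refine sum_congr rfl fun j _ => ?_
  rw [← mul_assoc]
  cases t k
  · simp only [cond_false, Matrix.smul_apply, smul_eq_mul]
    ring
  · simp only [cond_true, Matrix.smul_apply, smul_eq_mul]

/-- only the functions which agree with `I` outside `k` contribute -/
theorem sum_update (I : κ → ι) (k : κ) (c : ι → ℂ) (F : (κ → ι) → ℂ) :
    ∑ J : κ → ι, (∏ s ∈ univ.erase k, (if I s = J s then (1 : ℂ) else 0)) * c (J k) * F J =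
      ∑ j, c j * F (Function.update I k j) := by
  classical
  symm
  refine sum_of_injOn (fun j => Function.update I k j) ?_ ?_ ?_ ?_
  · intro j _ j' _ h
    have := congrFun h k
    simpa using this
  · intro j _
    simp
  · intro J _ hJ
    have h1 : ∃ s ∈ univ.erase k, I s ≠ J s := by
      by_contra hcon
      push Not at hcon
      apply hJ
      refine ⟨J k, by simp, ?_⟩
      funext s
      by_cases hs : s = k
      · subst hs
        simp
      · show Function.update I k (J k) s = J s
        rw [Function.update_of_ne hs]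
        exact hcon s (by simp [hs])
    obtain ⟨s, hs, hs2⟩ := h1
    rw [prod_eq_zero hs (if_neg hs2), zero_mul, zero_mul]
  · intro j _
    have h1 : ∏ s ∈ univ.erase k, (if I s = Function.update I k j s then (1 : ℂ) else 0) = 1 := by
      refine prod_eq_one fun s hs => ?_
      rw [Function.update_of_ne (ne_of_mem_erase hs), if_pos rfl]
    show _ = (∏ s ∈ univ.erase k, (if I s = Function.update I k j s then (1 : ℂ) else 0)) *
      c (Function.update I k j k) * F (Function.update I k j)
    rw [h1, one_mul, Function.update_self]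

theorem inf_skew (t : κ → Bool) (F : (κ → ι) → ℂ)
    (h : ∀ g : Matrix ι ι ℂ, gᴴ * g = 1 → mact t g F = F) (I : κ → ι) (X : Matrix ι ι ℂ)
    (hX : Xᴴ = -X) : inf t F I X = 0 := by
  obtain ⟨g, hg, hg0, hd⟩ := exists_path X hX
  have hXc : ∀ a b, starRingEnd ℂ (X a b) = -(X b a) := by
    intro a b
    have h1 := congrFun (congrFun hX b) a
    rw [conjTranspose_apply] at h1
    exact h1
  -- the derivative of a factor
  have h1 : ∀ (s : κ) (a b : ι), HasDerivAt
      (fun u => cond (t s) (g u a b) (starRingEnd ℂ (g u a b)))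
      (cond (t s) (X a b) (-(X b a))) (0 : ℝ) := by
    intro s a b
    cases t s
    · simp only [cond_false]
      rw [← hXc]
      exact (hd a b).star
    · simp only [cond_true]
      exact hd a b
  have h2 : HasDerivAt (fun u => mact t (g u) F I)
      (∑ J : κ → ι, (∑ k, (∏ s ∈ univ.erase k,
        cond (t s) (g 0 (I s) (J s)) (starRingEnd ℂ (g 0 (I s) (J s)))) •
          cond (t k) (X (I k) (J k)) (-(X (J k) (I k)))) * F J) (0 : ℝ) := by
    unfold mact
    refine HasDerivAt.fun_sum fun J _ => ?_
    exact (HasDerivAt.fun_finsetProd fun s _ => h1 s (I s) (J s)).mul_const (F J)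
  have h3 : (fun u => mact t (g u) F I) = fun _ => F I := by
    funext u
    rw [h (g u) (hg u)]
  rw [h3] at h2
  have h4 := h2.unique (hasDerivAt_const (0 : ℝ) (F I))
  rw [← h4]
  unfold inf
  simp only [sum_mul]
  symm
  rw [sum_comm]
  refine sum_congr rfl fun k _ => ?_
  have h5 := sum_update I k (fun j => cond (t k) (X (I k) j) (-(X j (I k)))) F
  rw [← h5]
  refine sum_congr rfl fun J _ => ?_
  rw [smul_eq_mul]
  refine congrArg (fun x => x * cond (t k) (X (I k) (J k)) (-(X (J k) (I k))) * F J) ?_
  refine prod_congr rfl fun s _ => ?_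
  rw [hg0, Matrix.one_apply]
  cases t s
  · simp only [cond_false]
    split_ifs
    · simp
    · simp
  · simp only [cond_true]

theorem inf_zero (t : κ → Bool) (F : (κ → ι) → ℂ)
    (h : ∀ g : Matrix ι ι ℂ, gᴴ * g = 1 → mact t g F = F) (I : κ → ι) (X : Matrix ι ι ℂ) :
    inf t F I X = 0 := by
  have hS : (((1 / 2 : ℂ) • (X - Xᴴ)))ᴴ = -((1 / 2 : ℂ) • (X - Xᴴ)) := by
    rw [conjTranspose_smul, conjTranspose_sub, conjTranspose_conjTranspose]
    simp only [star_div₀, star_one, star_ofNat]
    rw [← smul_neg, neg_sub]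
  have hT : (((-Complex.I / 2 : ℂ) • (X + Xᴴ)))ᴴ = -((-Complex.I / 2 : ℂ) • (X + Xᴴ)) := by
    rw [conjTranspose_smul, conjTranspose_add, conjTranspose_conjTranspose, ← neg_smul, add_comm]
    refine congrArg (fun c : ℂ => c • (X + Xᴴ)) ?_
    simp [Complex.conj_I]
    ring
  have hX : X = (1 / 2 : ℂ) • (X - Xᴴ) + Complex.I • ((-Complex.I / 2 : ℂ) • (X + Xᴴ)) := by
    rw [smul_smul]
    have e1 : Complex.I * (-Complex.I / 2) = 1 / 2 := by
      have := Complex.I_mul_I
      linear_combination (-1 / 2) * this
    rw [e1, ← smul_add, sub_add_add_cancel, ← two_smul ℂ X, smul_smul]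
    norm_num
  rw [hX, inf_add, inf_skew t F h I _ hS, inf_smul, inf_skew t F h I _ hT, mul_zero, add_zero]

end main

theorem t_eqv : S_eqv := by
  intro ι _ _ κ _ _ t F h p q I
  have h1 := inf_zero t F h I (Matrix.single p q 1)
  refine Eq.trans ?_ h1
  unfold inf
  refine sum_congr rfl fun k _ => ?_
  cases t k
  · simp only [cond_false]
    by_cases hk : I k = q
    · rw [if_pos hk]
      rw [sum_eq_single p]
      · rw [hk]
        simp
      · intro j _ hj
        rw [Matrix.single_apply_of_ne]
        · simp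
        · intro h2
          exact hj h2.1.symm
      · intro h2
        simp at h2
    · rw [if_neg hk]
      symm
      rw [neg_zero]
      refine sum_eq_zero fun j _ => ?_
      rw [Matrix.single_apply_of_ne]
      · simp
      · intro h2
        exact hk h2.2.symm
  · simp only [cond_true]
    by_cases hk : I k = p
    · rw [if_pos hk]
      rw [sum_eq_single q]
      · rw [hk]
        simp
      · intro j _ hj
        rw [Matrix.single_apply_of_ne]
        · simp
        · intro h2
          exact hj h2.2.symm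
      · intro h2
        simp at h2
    · rw [if_neg hk]
      symm
      refine sum_eq_zero fun j _ => ?_
      rw [Matrix.single_apply_of_ne]
      · simp
      · intro h2
        exact hk h2.1.symm

end Pool.Agent.Y888.TS
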